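import Pool.Agent.MP_81f5b7_pr.H66.Spec

/-! The lazy labelling finds the true colours and ends in a closed set. -/

set_option linter.unusedSectionVars false

namespace Pool.Agent.MP_81f5b7_pr.H66

open Finset
open scoped Classical

namespace TRU

variable {V : Type} [Fintype V] [DecidableEq V]

theorem rows_split {ι : Type} [DecidableEq ι] [Fintype ι] (W : Finset (ℕ × ι)) {j m : ℕ}
    (h : j < m) : ∃ l, rows m W = rows j W ++ (univ.filter fun e => (j, e) ∈ W) :: l := by
  induction m with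
  | zero => omega
  | succ m ih =>
    rcases Nat.lt_succ_iff_lt_or_eq.1 h with h | rfl
    · obtain ⟨l, hl⟩ := ih h
      exact ⟨l ++ [univ.filter fun e => (m, e) ∈ W], by rw [rows_succ, hl]; simp⟩
    · exact ⟨[], rows_succ _ _⟩

theorem cld_mono {τ : V → C3} {Z : Finset V} {σ : V → C3} {D : Finset V}
    {W : Finset (ℕ × Sym2 V)} {j m : ℕ} (h : j ≤ m) (hD : Cld τ Z σ D (rows m W)) :
    Cld τ Z σ D (rows j W) := fun B hB => by
  obtain ⟨i, hi, e⟩ := mem_rows.1 hB
  exact hD B (mem_rows.2 ⟨i, hi.trans_le h, e⟩)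

theorem pick_some {a : C3} {t : St V} {z : V × C3} (h : pick a t = some z) :
    t.lab z.1 = some z.2 ∧ t.d z.1 < t.s := by
  unfold pick at h
  split_ifs at h with h1 h2
  · obtain rfl := Option.some.inj h
    exact h1.choose_spec
  · obtain rfl := Option.some.inj h
    exact h2.choose_spec

theorem pick_none {a : C3} {t : St V} (h : pick a t = none) {w : V} (hw : t.lab w ≠ none) :
    t.s ≤ t.d w := by
  unfold pick at h
  split_ifs at h with h1 h2
  obtain ⟨c, hc⟩ := Option.ne_none_iff_exists'.1 hw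
  by_contra h3
  exact h2 ⟨(w, c), hc, not_le.1 h3⟩

theorem lzN_none {τ : V → C3} {a : C3} {m : ℕ} {t : St V} {W : Finset (ℕ × Sym2 V)}
    (h : pick a t = none) : lzN τ a m t W = ⟨min (t.s + 1) m, t.lab, t.d⟩ := by
  rw [lzN, h]

theorem lzN_some {τ : V → C3} {a : C3} {m : ℕ} {t : St V} {W : Finset (ℕ × Sym2 V)} {z : V × C3}
    (h : pick a t = some z) : lzN τ a m t W = ⟨t.s, fun y =>
      if y ∈ tg τ t z.2 ∧ (t.d z.1, s(z.1, y)) ∈ W then some (-τ y - z.2) else t.lab y,
      Function.update t.d z.1 (t.d z.1 + 1)⟩ := by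
  rw [lzN, h]

theorem mem_tg {τ : V → C3} {t : St V} {c : C3} {y : V} :
    y ∈ tg τ t c ↔ t.lab y = none ∧ τ y ≠ c := by simp [tg]

/-- the invariant of the run -/
structure Iv (τ : V → C3) (Z : Finset V) (m : ℕ) (A : Finset V) (σ : V → C3)
    (W : Finset (ℕ × Sym2 V)) (t : St V) : Prop where
  sm : t.s ≤ m
  ds : ∀ y, t.d y ≤ t.s
  tru : ∀ y c, t.lab y = some c → σ y = c
  dz : ∀ y, t.lab y = none → t.d y = 0
  cl : ∀ w y j, j < t.d w → y ≠ w → (j, s(w, y)) ∈ W → al τ Z y (σ w) → t.lab y ≠ none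
  ex : ∃ D, A ⊆ D ∧ (∀ y ∈ D, t.lab y ≠ none) ∧ Cld τ Z σ D (rows (t.s - 1) W)

variable {τ : V → C3} {Z : Finset V} {a : C3} {m : ℕ} {A : Finset V} {σ : V → C3}
  {W : Finset (ℕ × Sym2 V)} {t : St V}

theorem Iv.closed (h : Iv τ Z m A σ W t) {k : ℕ} (hk : ∀ w, t.lab w ≠ none → k ≤ t.d w) :
    A ⊆ univ.filter (fun y => t.lab y ≠ none) ∧
      Cld τ Z σ (univ.filter fun y => t.lab y ≠ none) (rows k W) := by
  obtain ⟨D, h1, h2, -⟩ := h.ex
  refine ⟨fun y hy => mem_filter.2 ⟨mem_univ _, h2 y (h1 hy)⟩, fun B hB w hw y hy he hal => ?_⟩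
  obtain ⟨j, hj, rfl⟩ := mem_rows.1 hB
  exact mem_filter.2 ⟨mem_univ _,
    h.cl w y j (hj.trans_le (hk w (mem_filter.1 hw).2)) hy (mem_filter.1 he).2 hal⟩

theorem Iv.none (h : Iv τ Z m A σ W t) (hp : pick a t = none) :
    Iv τ Z m A σ W (lzN τ a m t W) := by
  rw [lzN_none hp]
  have h1 := h.sm
  obtain ⟨h2, h3⟩ := h.closed fun w hw => pick_none hp hw
  exact ⟨min_le_right _ _, fun y => (h.ds y).trans (le_min (Nat.le_succ _) h1), h.tru, h.dz, h.cl,
    _, h2, fun y hy => (mem_filter.1 hy).2, cld_mono (by dsimp only; omega) h3⟩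

theorem Iv.some (hσ : σ ∈ S0 τ Z) (hZ : Z ⊆ A) (hS : Star τ Z σ A (rows m W))
    (h : Iv τ Z m A σ W t) {z : V × C3} (hp : pick a t = some z) :
    Iv τ Z m A σ W (lzN τ a m t W) := by
  rw [lzN_some hp]
  obtain ⟨p1, p2⟩ := pick_some hp
  obtain ⟨D, d1, d2, d3⟩ := h.ex
  have p3 := h.tru _ _ p1
  have nz : ∀ y, t.lab y = Option.none → y ∉ Z := fun y hy hz => d2 y (d1 (hZ hz)) hy
  have mo : ∀ y, t.lab y ≠ Option.none → (if y ∈ tg τ t z.2 ∧ (t.d z.1, s(z.1, y)) ∈ W
      then Option.some (-τ y - z.2) else t.lab y) ≠ Option.none := fun y hy => by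
    split_ifs
    exacts [Option.some_ne_none _, hy]
  refine ⟨h.sm, fun y => ?_, fun y c hy => ?_, fun y hy => ?_, fun w y j hj hy he hal => ?_,
    D, d1, fun y hy => mo y (d2 y hy), d3⟩
  · dsimp only
    by_cases e : y = z.1
    · rw [e, Function.update_self]
      exact p2
    · rw [Function.update_of_ne e]
      exact h.ds y
  · dsimp only at hy
    split_ifs at hy with h1
    · obtain ⟨h2, h3⟩ := mem_tg.1 h1.1
      rw [← Option.some.inj hy]
      refine third h3.symm ((mem_S0.1 hσ y).2 (nz y h2)) fun e => ?_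
      obtain ⟨l, hl⟩ := rows_split W (p2.trans_le h.sm)
      refine d2 y (hS _ _ l hl D d1 (cld_mono (by omega) d3) y z.1 (fun e' => ?_) ?_
        (e.trans p3.symm)) h2
      · rw [e', p1] at h2
        exact Option.some_ne_none _ h2
      · rw [Sym2.eq_swap]
        exact mem_filter.2 ⟨mem_univ _, h1.2⟩
    · exact h.tru y c hy
  · have h1 : t.lab y = Option.none := by
      by_contra h2
      exact mo y h2 hy
    have h2 : y ≠ z.1 := fun e => by
      rw [e, p1] at h1
      exact Option.some_ne_none _ h1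
    dsimp only
    rw [Function.update_of_ne h2]
    exact h.dz y h1
  · dsimp only at hj ⊢
    by_cases e : w = z.1
    · subst e
      rw [Function.update_self] at hj
      rcases Nat.lt_succ_iff_lt_or_eq.1 hj with h1 | rfl
      · exact mo y (h.cl _ y j h1 hy he hal)
      · by_cases h2 : t.lab y = Option.none
        · rw [if_pos ⟨mem_tg.2 ⟨h2, fun e' => hal.2 (nz y h2) (p3.trans e'.symm)⟩, he⟩]
          exact Option.some_ne_none _
        · exact mo y h2
    · rw [Function.update_of_ne e] at hj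
      exact mo y (h.cl w y j hj hy he hal)

theorem lz_succ (k : ℕ) : lz τ a m A σ W (k + 1) = lzN τ a m (lz τ a m A σ W k) W :=
  Function.iterate_succ_apply' _ _ _

theorem iv (hσ : σ ∈ S0 τ Z) (hZ : Z ⊆ A) (hS : Star τ Z σ A (rows m W)) (k : ℕ) :
    Iv τ Z m A σ W (lz τ a m A σ W k) := by
  induction k with
  | zero =>
    refine ⟨Nat.zero_le _, fun _ => le_rfl, fun y c hy => ?_, fun _ _ => rfl,
      fun w y j hj => absurd hj (Nat.not_lt_zero _), A, Subset.rfl, fun y hy => ?_,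
      fun B hB => ?_⟩
    · change (if y ∈ A then some (σ y) else none) = some c at hy
      split_ifs at hy
      exact Option.some.inj hy
    · change (if y ∈ A then some (σ y) else none) ≠ none
      rw [if_pos hy]
      exact Option.some_ne_none _
    · obtain ⟨j, hj, -⟩ := mem_rows.1 hB
      exact absurd hj (Nat.not_lt_zero _)
  | succ k ih =>
    rw [lz_succ]
    rcases hp : pick a (lz τ a m A σ W k) with _ | z
    exacts [ih.none hp, ih.some hσ hZ hS hp]

/-- the work that is left -/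
def wk (m : ℕ) (t : St V) : ℕ := ∑ y, (m - t.d y) + (m - t.s)

theorem drop (hs : t.s ≤ m) :
    (∀ w, (lzN τ a m t W).lab w ≠ none → m ≤ (lzN τ a m t W).d w) ∨
      ((¬∀ w, t.lab w ≠ none → m ≤ t.d w) ∧ wk m (lzN τ a m t W) + 1 ≤ wk m t) := by
  rcases hp : pick a t with _ | z
  · rw [lzN_none hp]
    by_cases h : ∀ w, t.lab w ≠ none → m ≤ t.d w
    · exact Or.inl h
    · refine Or.inr ⟨h, ?_⟩
      have h1 : t.s ≠ m := fun e => h fun w hw => e ▸ pick_none hp hw
      unfold wk
      dsimp only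
      omega
  · obtain ⟨p1, p2⟩ := pick_some hp
    refine Or.inr ⟨fun h => ?_, ?_⟩
    · have := h z.1 (by rw [p1]; exact Option.some_ne_none _)
      omega
    · rw [lzN_some hp]
      unfold wk
      dsimp only
      rw [← add_sum_erase _ _ (mem_univ z.1), ← add_sum_erase _ (fun y => m - t.d y) (mem_univ z.1),
        Function.update_self, sum_congr rfl fun y hy => by
          rw [Function.update_of_ne (ne_of_mem_erase hy)]]
      omega

theorem fin (hσ : σ ∈ S0 τ Z) (hZ : Z ⊆ A) (hS : Star τ Z σ A (rows m W)) (k : ℕ) :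
    (∀ w, (lz τ a m A σ W k).lab w ≠ none → m ≤ (lz τ a m A σ W k).d w) ∨
      wk m (lz τ a m A σ W k) + k ≤ (Fintype.card V + 1) * m := by
  induction k with
  | zero =>
    right
    change ∑ _y : V, (m - 0) + (m - 0) + 0 ≤ _
    simp [add_mul]
  | succ k ih =>
    rw [lz_succ]
    refine (drop (τ := τ) (a := a) (W := W) (iv (a := a) hσ hZ hS k).sm).imp_right fun h => ?_
    have := ih.resolve_left h.1
    omega

end TRU

open TRU in
theorem rowTRU : STRU := by
  intro V _ _ τ Z a m A σ W hσ hZ hS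
  have h1 := iv (a := a) hσ hZ hS ((Fintype.card V + 1) * m)
  have h2 := fin (a := a) hσ hZ hS ((Fintype.card V + 1) * m)
  generalize lz τ a m A σ W ((Fintype.card V + 1) * m) = t at h1 h2
  have h3 : ∀ w, t.lab w ≠ none → m ≤ t.d w := by
    refine h2.elim id fun h w _ => ?_
    have h4 : m - t.d w ≤ ∑ y, (m - t.d y) :=
      single_le_sum (f := fun y => m - t.d y) (fun _ _ => Nat.zero_le _) (mem_univ w)
    unfold wk at h
    omega
  obtain ⟨h4, h5⟩ := h1.closed h3
  refine ⟨_, h4, h5, fun c => ?_⟩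
  unfold St.L sz
  congr 1
  ext y
  simp only [mem_filter, mem_univ, true_and]
  refine ⟨fun h => ⟨by rw [h]; exact Option.some_ne_none _, h1.tru y c h⟩, fun h => ?_⟩
  obtain ⟨c', hc⟩ := Option.ne_none_iff_exists'.1 h.1
  rw [hc, ← h1.tru y c' hc, h.2]

end Pool.Agent.MP_81f5b7_pr.H66
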